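import Pool.Agent.LRG.StmtsE

/-!
# Squad LRG, block E, row DSJ

Different parameters of the same size give different fields.
-/

set_option autoImplicit false

open Polynomial NumberField

namespace Pool.Agent.LRG.H76

open Pool.Agent.LRG.E

/-- The product of the absolute values of the conjugates of a unit. -/
theorem prod_norm_unit (K : Type) [Field K] [NumberField K] (a : (𝓞 K)ˣ) :
    ∏ σ : K →+* ℂ, ‖σ ((a : 𝓞 K) : K)‖ = 1 := by
  have h1 := Algebra.norm_eq_prod_embeddings ℚ ℂ ((a : 𝓞 K) : K)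
  have h2 : |Algebra.norm ℚ ((a : 𝓞 K) : K)| = 1 := NumberField.Units.norm K a
  have h3 : ∏ σ : K →+* ℂ, ‖σ ((a : 𝓞 K) : K)‖ = ∏ φ : K →ₐ[ℚ] ℂ, ‖φ ((a : 𝓞 K) : K)‖ :=
    Fintype.prod_equiv (RingHom.equivRatAlgHom K ℂ) _ _ fun _ => by
      simp [RingHom.equivRatAlgHom_apply]
  rw [h3, ← norm_prod, ← h1, eq_ratCast, Complex.norm_ratCast, ← Rat.cast_abs, h2, Rat.cast_one]

/-- A finite family of numbers with sum zero, positive and small outside a fibre, constant on the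
fibre. -/
theorem bound_all {α : Type} [Fintype α] [DecidableEq α] (f : α → ℝ) (S : Finset α) (M : ℝ)
    (hM : 0 ≤ M) (hpos : ∀ o, o ∉ S → 0 < f o) (hle : ∀ o, o ∉ S → f o ≤ M)
    (hcst : ∀ o ∈ S, ∀ o' ∈ S, f o = f o') (hsum : ∑ o, f o = 0) (o : α) :
    |f o| ≤ (Fintype.card α : ℝ) * M := by
  have hcard : (1 : ℝ) ≤ (Fintype.card α : ℝ) := by
    have : 0 < Fintype.card α := Fintype.card_pos_iff.2 ⟨o⟩
    exact_mod_cast this
  by_cases ho : o ∈ S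
  · have h1 : ∑ o' ∈ S, f o' = (S.card : ℝ) * f o := by
      rw [Finset.sum_congr rfl (fun o' ho' => hcst o' ho' o ho), Finset.sum_const, nsmul_eq_mul]
    have h2 : ∑ o' ∈ Sᶜ, f o' ≤ (Fintype.card α : ℝ) * M := by
      have h3 : ∑ o' ∈ Sᶜ, f o' ≤ ∑ _o' ∈ Sᶜ, M :=
        Finset.sum_le_sum fun o' ho' => hle o' (Finset.mem_compl.1 ho')
      rw [Finset.sum_const, nsmul_eq_mul] at h3
      have h4 : ((Sᶜ).card : ℝ) ≤ (Fintype.card α : ℝ) := by
        exact_mod_cast Finset.card_le_univ _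
      exact h3.trans (mul_le_mul_of_nonneg_right h4 hM)
    have h5 : 0 ≤ ∑ o' ∈ Sᶜ, f o' :=
      Finset.sum_nonneg fun o' ho' => (hpos o' (Finset.mem_compl.1 ho')).le
    have h6 : ∑ o' ∈ S, f o' + ∑ o' ∈ Sᶜ, f o' = 0 := by
      rw [Finset.sum_add_sum_compl, hsum]
    have h7 : (1 : ℝ) ≤ (S.card : ℝ) := by
      have : 0 < S.card := Finset.card_pos.2 ⟨o, ho⟩
      exact_mod_cast this
    rw [h1] at h6
    have h8 : f o ≤ 0 := by
      by_contra hc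
      push Not at hc
      have : 0 < (S.card : ℝ) * f o := mul_pos (by linarith) hc
      linarith
    rw [abs_of_nonpos h8]
    nlinarith
  · rw [abs_of_pos (hpos o ho)]
    have := hle o ho
    nlinarith

/-- The main step. -/
theorem core (h1 : FctStmt) (h2 : SpcStmt) (h3 : UntStmt) (h5 : DsrStmt) (h6 : LgbStmt)
    (r₁ r₂ : ℕ) (hr : 2 ≤ r₁ + r₂) (c δ : ℝ) (hδ : 0 < δ)
    (hc : 4 * ((r₁ + 2 * r₂ : ℕ) : ℝ) * δ < c)
    (K : Type) [Field K] [NumberField K]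
    (hK : Module.finrank ℚ K = r₁ + 2 * r₂ → ∀ u : (𝓞 K)ˣ,
    (∀ σ : K →+* ℂ, |Real.log ‖σ ((u : 𝓞 K) : K)‖| < c) → ∀ σ : K →+* ℂ, ‖σ ((u : 𝓞 K) : K)‖ = 1)
    (N : ℕ) (hN4 : 4 ≤ N) (hN : (4 : ℝ) ≤ δ * N) (hδ1 : δ ≤ 1) (t t' : ℕ)
    (x x' : Ro r₁ r₂ → ℂ) (θ θ' : K)
    (e : Ro r₁ r₂ ≃ (K →+* ℂ)) (hF : Fld r₁ r₂ t x K θ e) (hF' : Fld r₁ r₂ t' x' K θ' e)
    (ht : N ≤ t) (ht' : (t' : ℝ) ≤ (1 + δ) * N) (htt : t < t') : False := by
  classical
  obtain ⟨u, hu⟩ := h3 h1 r₁ r₂ t x K θ e hF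
  obtain ⟨u', hu'⟩ := h3 h1 r₁ r₂ t' x' K θ' e hF'
  have ht4 : 4 ≤ t := hN4.trans ht
  have ht4' : 4 ≤ t' := ht4.trans htt.le
  have hd := (h6 r₁ r₂ t x hF.rts ht4 hr).1
  have hd' := (h6 r₁ r₂ t' x' hF'.rts ht4' hr).1
  have hdsr := h5 h2 r₁ r₂ t t' x x' hF.rts hF'.rts ht4 htt hr
  obtain ⟨k, k', hkk⟩ : ∃ k k' : Fa r₁ r₂, k ≠ k' := by
    have : 1 < Fintype.card (Fa r₁ r₂) := by
      simp only [Fa, Fintype.card_sum, Fintype.card_fin]
      omega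
    exact Fintype.one_lt_card_iff.1 this
  have hfr : fac (rep k') = k' := by
    rcases k' with i | j <;> rfl
  have hne : ∀ (v : (𝓞 K)ˣ) (σ : K →+* ℂ), σ ((v : 𝓞 K) : K) ≠ 0 := fun v σ => by
    rw [_root_.map_ne_zero]
    exact NumberField.Units.coe_ne_zero v
  set a : (𝓞 K)ˣ := u' k * (u k)⁻¹ with ha
  have haσ : ∀ σ : K →+* ℂ, σ ((a : 𝓞 K) : K) * σ ((u k : 𝓞 K) : K) = σ ((u' k : 𝓞 K) : K) := by
    intro σ
    rw [← map_mul, ← map_mul]
    congr 2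
    rw [← Units.val_mul, ha, inv_mul_cancel_right]
  have hna : ∀ o, ‖e o ((a : 𝓞 K) : K)‖ * dst t (x o) k = dst t' (x' o) k := by
    intro o
    rw [← hu o k, ← hu' o k, ← norm_mul, haσ]
  set f : Ro r₁ r₂ → ℝ := fun o => Real.log ‖e o ((a : 𝓞 K) : K)‖ with hf
  have hfo : ∀ o, ‖e o ((a : 𝓞 K) : K)‖ = dst t' (x' o) k / dst t (x o) k := fun o =>
    (eq_div_iff (hd o k).ne').2 (hna o)
  -- the quotient
  have hNr : (4 : ℝ) ≤ N := by exact_mod_cast hN4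
  have htr : (N : ℝ) ≤ t := by exact_mod_cast ht
  have hq : ((t' : ℝ) + 1) / ((t : ℝ) - 1) ≤ 1 + 2 * δ := by
    rw [div_le_iff₀ (by linarith)]
    nlinarith
  have hq0 : 0 ≤ ((t' : ℝ) + 1) / ((t : ℝ) - 1) := div_nonneg (by positivity) (by linarith)
  have hlog : Real.log (1 + 2 * δ) ≤ 2 * δ := by
    have := Real.log_le_sub_one_of_pos (x := 1 + 2 * δ) (by linarith)
    linarith
  have hpos : ∀ o, fac o ≠ k → 0 < f o := by
    intro o ho
    apply Real.log_pos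
    rw [hfo, lt_div_iff₀ (hd o k), one_mul]
    exact (hdsr o k ho).1
  have hle : ∀ o, fac o ≠ k → f o ≤ 4 * δ := by
    intro o ho
    have h7 : ‖e o ((a : 𝓞 K) : K)‖ ≤ (1 + 2 * δ) ^ 2 := by
      rw [hfo, div_le_iff₀ (hd o k)]
      refine (hdsr o k ho).2.trans (mul_le_mul_of_nonneg_right ?_ (hd o k).le)
      exact pow_le_pow_left₀ hq0 hq 2
    have h8 : 0 < ‖e o ((a : 𝓞 K) : K)‖ := norm_pos_iff.2 (hne a (e o))
    have h9 := Real.log_le_log h8 h7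
    rw [Real.log_pow] at h9
    have : f o ≤ (2 : ℕ) * Real.log (1 + 2 * δ) := h9
    push_cast at this
    linarith
  have hsum : ∑ o, f o = 0 := by
    have h7 : ∏ o, ‖e o ((a : 𝓞 K) : K)‖ = 1 := by
      rw [Equiv.prod_comp e (fun σ : K →+* ℂ => ‖σ ((a : 𝓞 K) : K)‖)]
      exact prod_norm_unit K a
    have h8 := Real.log_prod (s := Finset.univ) (f := fun o => ‖e o ((a : 𝓞 K) : K)‖)
      (fun o _ => (norm_pos_iff.2 (hne a (e o))).ne')
    rw [h7, Real.log_one] at h8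
    exact h8.symm
  have hst : ∀ o, f (st o) = f o := by
    intro o
    simp only [hf]
    rw [← hF.cj o, ComplexEmbedding.conjugate_coe_eq, Complex.norm_conj]
  have hcst : ∀ o ∈ Finset.univ.filter (fun o : Ro r₁ r₂ => fac o = k),
      ∀ o' ∈ Finset.univ.filter (fun o : Ro r₁ r₂ => fac o = k), f o = f o' := by
    intro o ho o' ho'
    rw [Finset.mem_filter] at ho ho'
    have h7 : fac o = fac o' := ho.2.trans ho'.2.symm
    rcases o with i | ⟨j, b⟩ <;> rcases o' with i' | ⟨j', b'⟩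
    · have : i = i' := by simpa [fac] using h7
      rw [this]
    · simp [fac] at h7
    · simp [fac] at h7
    · have hj : j = j' := by simpa [fac] using h7
      subst hj
      by_cases hb : b = b'
      · rw [hb]
      · have h8 := hst (Sum.inr (j, b'))
        have h9 : st (Sum.inr (j, b') : Ro r₁ r₂) = Sum.inr (j, b) := by
          simp only [st, Sum.elim_inr]
          rw [show (!b') = b by cases b <;> cases b' <;> simp_all]
        rw [h9] at h8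
        exact h8
  have hall := bound_all f (Finset.univ.filter (fun o : Ro r₁ r₂ => fac o = k)) (4 * δ)
    (by linarith) (fun o ho => hpos o (by simpa using ho)) (fun o ho => hle o (by simpa using ho))
    hcst hsum
  have hcard : Fintype.card (Ro r₁ r₂) = r₁ + 2 * r₂ := by
    simp only [Ro, Fintype.card_sum, Fintype.card_fin, Fintype.card_prod, Fintype.card_bool]
    ring
  have hfin := hK hF.deg a (fun σ => by
    obtain ⟨o, rfl⟩ := e.surjective σ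
    refine (hall o).trans_lt ?_
    rw [hcard]
    linarith) (e (rep k'))
  have h10 := hpos (rep k') (by rw [hfr]; exact hkk.symm)
  simp only [hf] at h10
  rw [hfin, Real.log_one] at h10
  exact lt_irrefl _ h10

/-- DSJ. -/
theorem dsj : DsjStmt := by
  intro h1 h2 h3 h4 h5 h6 r₁ r₂ hr
  have hn : 0 < r₁ + 2 * r₂ := by omega
  obtain ⟨c, hc, hK⟩ := h4 (r₁ + 2 * r₂) hn
  have hn' : (0 : ℝ) < ((r₁ + 2 * r₂ : ℕ) : ℝ) := by exact_mod_cast hn
  set δ : ℝ := min 1 (c / (8 * ((r₁ + 2 * r₂ : ℕ) : ℝ))) with hδ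
  have hδ0 : 0 < δ := lt_min one_pos (by positivity)
  have hδ1 : δ ≤ 1 := min_le_left _ _
  have hδc : 4 * ((r₁ + 2 * r₂ : ℕ) : ℝ) * δ < c := by
    have h7 : δ ≤ c / (8 * ((r₁ + 2 * r₂ : ℕ) : ℝ)) := min_le_right _ _
    rw [le_div_iff₀ (by positivity)] at h7
    nlinarith
  refine ⟨δ, max 4 ⌈4 / δ⌉₊, hδ0, hδ1, ?_⟩
  intro N hN K _ _ t t' x x' θ θ' e hF hF' ht ht' htN ht'N
  have hN4 : 4 ≤ N := (le_max_left _ _).trans hN
  have hN1 : (4 : ℝ) ≤ δ * N := by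
    have h7 : ⌈4 / δ⌉₊ ≤ N := (le_max_right _ _).trans hN
    have h8 : 4 / δ ≤ (N : ℝ) := (Nat.le_ceil _).trans (by exact_mod_cast h7)
    rw [div_le_iff₀ hδ0] at h8
    linarith
  rcases lt_trichotomy t t' with h | h | h
  · exact (core h1 h2 h3 h5 h6 r₁ r₂ hr c δ hδ0 hδc K (hK K) N hN4 hN1 hδ1 t t' x x' θ θ' e hF hF'
      ht ht'N h).elim
  · exact h
  · exact (core h1 h2 h3 h5 h6 r₁ r₂ hr c δ hδ0 hδc K (hK K) N hN4 hN1 hδ1 t' t x' x θ' θ e hF' hF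
      ht' htN h).elim

end Pool.Agent.LRG.H76
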